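import Pool.Agent.MP_ea150c_mp.H20.SpecM

/-! Minors of the reduced incidence matrix. -/

namespace Pool.Agent.MP_ea150c_mp.H59

open Matrix Pool.Agent.MP_ea150c_mp.H20

variable {E I : Type} [Fintype E] [DecidableEq E] [Fintype I] [DecidableEq I]
  (s t : E → Option I) (T : Finset E)

omit [Fintype E] [DecidableEq E] in
theorem inc_mulVec {R : Type} [CommRing R] (x : I → R) (e : E) :
    (inc R s t *ᵥ x) e = (s e).elim 0 x - (t e).elim 0 x := by
  have h : ∀ o : Option I, ∑ i, (if o = some i then 1 else 0) * x i = o.elim 0 x := by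
    rintro (_ | j)
    · simp
    · simp
  simp only [inc, mulVec, dotProduct, of_apply, sub_mul, Finset.sum_sub_distrib, h]

theorem conn_iff (F : Type) [Field F] :
    Conn s t T ↔ ∀ x : I → F, (∀ e ∈ T, (inc F s t *ᵥ x) e = 0) → x = 0 := by
  classical
  constructor
  · intro h x hx
    have key : ∀ u v, Relation.EqvGen (fun a b => ∃ e ∈ T, s e = a ∧ t e = b) u v →
        u.elim 0 x = v.elim 0 x := by
      intro u v huv
      induction huv with
      | rel a b hab =>
        obtain ⟨e, he, rfl, rfl⟩ := hab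
        exact sub_eq_zero.1 ((inc_mulVec s t x e).symm.trans (hx e he))
      | refl => rfl
      | symm _ _ _ ih => exact ih.symm
      | trans _ _ _ _ _ i1 i2 => exact i1.trans i2
    funext i
    exact key (some i) none (h _ _)
  · intro h
    let r := Relation.EqvGen (fun a b => ∃ e ∈ T, s e = a ∧ t e = b)
    let y : Option I → F := fun o => if r o none then 0 else 1
    have hy : ∀ o : Option I, o.elim 0 (fun i => y (some i)) = y o := by
      rintro (_ | i)
      · exact (if_pos (Relation.EqvGen.refl _)).symm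
      · rfl
    have h0 := h (fun i => y (some i)) fun e he => by
      rw [inc_mulVec, hy, hy, sub_eq_zero]
      have h1 : r (s e) (t e) := Relation.EqvGen.rel _ _ ⟨e, he, rfl, rfl⟩
      exact if_congr ⟨fun h2 => (h1.symm _ _).trans _ _ _ h2, fun h2 => h1.trans _ _ _ h2⟩ rfl rfl
    have h2 : ∀ o, r o none := by
      rintro (_ | i)
      · exact Relation.EqvGen.refl _
      · by_contra h3
        have := congrFun h0 i
        simp [y, h3] at this
    exact fun u v => (h2 u).trans _ _ _ ((h2 v).symm _ _)

theorem det_ne_iff (F : Type) [Field F] (φ : I ≃ T) :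
    Conn s t T ↔ ((inc F s t).submatrix (fun i => (φ i : E)) id).det ≠ 0 := by
  rw [conn_iff s t T F, Ne, ← exists_mulVec_eq_zero_iff]
  have h : ∀ x : I → F, (∀ e ∈ T, (inc F s t *ᵥ x) e = 0) ↔
      (inc F s t).submatrix (fun i => (φ i : E)) id *ᵥ x = 0 := by
    intro x
    constructor
    · intro hx
      funext i
      exact hx _ (φ i).2
    · intro hx e he
      have := congrFun hx (φ.symm ⟨e, he⟩)
      change (inc F s t *ᵥ x) (φ (φ.symm ⟨e, he⟩) : E) = 0 at this
      rwa [Equiv.apply_symm_apply] at this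
  simp only [h]
  constructor
  · rintro h1 ⟨x, hx, h2⟩
    exact hx (h1 x h2)
  · intro h1 x h2
    by_contra h3
    exact h1 ⟨x, h3, h2⟩

omit [Fintype E] [DecidableEq E] in
theorem det_cast (R : Type) [CommRing R] (φ : I → E) :
    ((inc R s t).submatrix φ id).det = (((inc ℤ s t).submatrix φ id).det : ℤ) := by
  rw [← eq_intCast (Int.castRingHom R), RingHom.map_det]
  congr 1
  ext i j
  simp [inc]

theorem sTree : STree := by
  intro F E I _ _ _ _ _ s t T
  refine ⟨conn_iff s t T F, fun φ => ⟨fun h => ?_, fun h => ?_⟩⟩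
  · have h1 : ((inc ℤ s t).submatrix (fun i => (φ i : E)) id).det.natAbs = 1 := by
      by_contra h2
      obtain ⟨l, hl, hd⟩ := Nat.exists_prime_and_dvd h2
      have := Fact.mk hl
      refine (det_ne_iff s t T (ZMod l) φ).1 h ?_
      rw [det_cast, ZMod.intCast_zmod_eq_zero_iff_dvd]
      exact Int.natCast_dvd.2 hd
    rw [det_cast, ← Int.cast_pow, ← Int.natAbs_sq, h1]
    simp
  · by_contra h1
    exact h ((det_ne_iff s t T F φ).2 h1)

end Pool.Agent.MP_ea150c_mp.H59
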