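import Pool.Agent.MP_ea150c_mp.H20.SpecR

/-! Closure properties of families of traces. -/

namespace Pool.Agent.MP_ea150c_mp.H59

open Polynomial Pool.Agent.MP_ea150c_mp.H20

variable {p : ℕ} [Fact p.Prime]

theorem tr_zero (d : ℕ → ℕ) : Tr p d fun _ => 0 :=
  ⟨Empty, inferInstance, inferInstance, 0, fun _ => 0, fun i => i.elim, fun H => by simp,
    fun k _ => by simp [Matrix.trace]⟩

theorem tr_add {d d' : ℕ → ℕ} {a b : ℕ → ℤ_[p]} (ha : Tr p d a) (hb : Tr p d' b) :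
    Tr p (fun H => d H + d' H) fun k => a k + b k := by
  obtain ⟨ι, _, _, M, w, h1, h2, h3⟩ := ha
  obtain ⟨ι', _, _, M', w', g1, g2, g3⟩ := hb
  refine ⟨ι ⊕ ι', inferInstance, inferInstance, Matrix.fromBlocks M 0 0 M', Sum.elim w w',
    ?_, fun H => ?_, fun k hk => ?_⟩
  · rintro (i | i) (j | j) <;> simp [h1, g1]
  · have a1 := h2 H
    have a2 := g2 H
    rw [Finset.card_filter] at a1 a2 ⊢
    rw [Fintype.sum_sum_type]
    exact add_le_add a1 a2
  · beta_reduce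
    rw [Matrix.fromBlocks_diagonal_pow, h3 k hk, g3 k hk]
    simp [Matrix.trace]

theorem tr_pow {d : ℕ → ℕ} {a : ℕ → ℤ_[p]} (x : ℤ_[p]) (ha : Tr p d a) :
    Tr p d fun k => x ^ k * a k := by
  obtain ⟨ι, _, _, M, w, h1, h2, h3⟩ := ha
  refine ⟨ι, inferInstance, inferInstance, x • M, w, fun i j => ?_, h2, fun k hk => ?_⟩
  · exact (h1 i j).mul_left x
  · beta_reduce
    rw [_root_.smul_pow, Matrix.trace_smul, h3 k hk, smul_eq_mul]

theorem mf_congr {a b : ℕ → ℕ → ℤ_[p]} (ha : MerF p a) (h : ∀ S k, 1 ≤ k → b S k = a S k) :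
    MerF p b := by
  obtain ⟨d, hd⟩ := ha
  refine ⟨d, fun S => ?_⟩
  obtain ⟨u, v, hu, hv, e⟩ := hd S
  exact ⟨u, v, hu, hv, fun k hk => (h S k hk).trans (e k hk)⟩

theorem mf_zero : MerF p fun _ _ => 0 :=
  ⟨fun _ => 0, fun _ => ⟨_, _, tr_zero _, tr_zero _, fun _ _ => by simp⟩⟩

theorem mf_add {a b : ℕ → ℕ → ℤ_[p]} (ha : MerF p a) (hb : MerF p b) :
    MerF p fun S k => a S k + b S k := by
  obtain ⟨d, hd⟩ := ha
  obtain ⟨d', hd'⟩ := hb
  refine ⟨fun H => d H + d' H, fun S => ?_⟩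
  obtain ⟨u, v, hu, hv, e⟩ := hd S
  obtain ⟨u', v', hu', hv', e'⟩ := hd' S
  refine ⟨_, _, tr_add hu hu', tr_add hv hv', fun k hk => ?_⟩
  beta_reduce
  rw [e k hk, e' k hk]
  ring

theorem mf_neg {a : ℕ → ℕ → ℤ_[p]} (ha : MerF p a) : MerF p fun S k => -a S k := by
  obtain ⟨d, hd⟩ := ha
  refine ⟨d, fun S => ?_⟩
  obtain ⟨u, v, hu, hv, e⟩ := hd S
  refine ⟨_, _, hv, hu, fun k hk => ?_⟩
  beta_reduce
  rw [e k hk]
  ring

theorem mf_pow {a : ℕ → ℕ → ℤ_[p]} (x : ℤ_[p]) (ha : MerF p a) :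
    MerF p fun S k => x ^ k * a S k := by
  obtain ⟨d, hd⟩ := ha
  refine ⟨d, fun S => ?_⟩
  obtain ⟨u, v, hu, hv, e⟩ := hd S
  refine ⟨_, _, tr_pow x hu, tr_pow x hv, fun k hk => ?_⟩
  beta_reduce
  rw [e k hk]
  ring

theorem mf_int {a : ℕ → ℕ → ℤ_[p]} (e : ℤ) (ha : MerF p a) :
    MerF p fun S k => (e : ℤ_[p]) * a S k := by
  induction e using Int.induction_on with
  | zero => exact mf_congr mf_zero fun _ _ _ => by simp
  | succ n ih => exact mf_congr (mf_add ih ha) fun _ _ _ => by push_cast; ring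
  | pred n ih => exact mf_congr (mf_add ih (mf_neg ha)) fun _ _ _ => by push_cast; ring

theorem mf_sum {J : Type} (s : Finset J) (a : J → ℕ → ℕ → ℤ_[p]) (h : ∀ j ∈ s, MerF p (a j)) :
    MerF p fun S k => ∑ j ∈ s, a j S k := by
  classical
  induction s using Finset.induction_on with
  | empty => exact mf_congr mf_zero fun _ _ _ => by simp
  | insert j s hj ih =>
    exact mf_congr (mf_add (h j (Finset.mem_insert_self j s))
      (ih fun i hi => h i (Finset.mem_insert_of_mem hi))) fun _ _ _ => Finset.sum_insert hj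

theorem sVT : SVT := by
  intro p _
  refine ⟨fun d t h => ⟨d, fun S => ⟨_, _, h S, tr_zero d, fun _ _ => by simp⟩⟩,
    fun a b => mf_congr, fun a b => mf_add, fun a x f ha => ?_, fun J => mf_sum,
    fun J s e c h => ?_, fun x c hx h => ?_⟩
  · refine mf_congr (mf_sum (Finset.range (f.natDegree + 1)) _ fun j _ =>
      mf_int (f.coeff j) (mf_pow (x * (p : ℤ_[p]) ^ j) ha)) fun S k _ => ?_
    rw [aeval_eq_sum_range, Finset.sum_mul, Finset.mul_sum]
    refine Finset.sum_congr rfl fun j _ => ?_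
    rw [zsmul_eq_mul]
    ring
  · choose! t ht using h
    refine ⟨_, mf_sum s _ fun j hj => mf_int (e j) (ht j hj).1, fun S k hk => ?_⟩
    rw [← Finset.sum_sub_distrib]
    refine Finset.dvd_sum fun j hj => ?_
    rw [← mul_sub]
    exact ((ht j hj).2 S k hk).mul_left _
  · obtain ⟨t, h1, h2⟩ := h
    obtain ⟨y, hy⟩ := hx.exists_left_inv
    refine ⟨_, mf_pow y h1, fun S k hk => ?_⟩
    have : c k - y ^ k * t S k = y ^ k * (x ^ k * c k - t S k) := by
      rw [mul_sub, ← mul_assoc, ← mul_pow, hy, one_pow, one_mul]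
    rw [this]
    exact (h2 S k hk).mul_left _

end Pool.Agent.MP_ea150c_mp.H59
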